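import Mathlib

set_option autoImplicit false

namespace Pool.Agent.Helper281.Kr
open Finset

section
variable {α : Type} [DecidableEq α]

/-- one compression step -/
def phi (F : Finset (Finset α)) (e : α) (s : Finset α) : Finset α :=
  if s.erase e ∈ F then s else s.erase e

lemma mem_of_erase_nmem {F : Finset (Finset α)} {e : α} {s : Finset α} (hs : s ∈ F)
    (h : s.erase e ∉ F) : e ∈ s := by
  by_contra hne
  rw [erase_eq_of_notMem hne] at h
  exact h hs

lemma phi_injOn (F : Finset (Finset α)) (e : α) : Set.InjOn (phi F e) (F : Set (Finset α)) := by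
  intro s hs t ht h
  rw [mem_coe] at hs ht
  unfold phi at h
  split_ifs at h with h1 h2 h2
  · exact h
  · rw [h] at hs; exact absurd hs h2
  · rw [← h] at ht; exact absurd ht h1
  · have e1 := mem_of_erase_nmem hs h1
    have e2 := mem_of_erase_nmem ht h2
    rw [← insert_erase e1, ← insert_erase e2, h]

lemma phi_sub (F : Finset (Finset α)) (e : α) (s : Finset α) : phi F e s ⊆ s := by
  unfold phi
  split_ifs
  · exact Subset.rfl
  · exact erase_subset _ _

lemma phi_symmDiff (F : Finset (Finset α)) (e : α) {s t : Finset α} (hs : s ∈ F) (ht : t ∈ F) :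
    ∃ X ∈ F, ∃ Y ∈ F, symmDiff (phi F e s) (phi F e t) ⊆ symmDiff X Y := by
  unfold phi
  split_ifs with h1 h2 h2
  · exact ⟨s, hs, t, ht, Subset.rfl⟩
  · have et := mem_of_erase_nmem ht h2
    by_cases hes : e ∈ s
    · refine ⟨s.erase e, h1, t, ht, ?_⟩
      intro x
      simp only [mem_symmDiff, mem_erase]
      by_cases hx : x = e
      · subst hx; tauto
      · tauto
    · refine ⟨s, hs, t, ht, ?_⟩
      intro x
      simp only [mem_symmDiff, mem_erase]
      by_cases hx : x = e
      · subst hx; tauto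
      · tauto
  · have es := mem_of_erase_nmem hs h1
    by_cases het : e ∈ t
    · refine ⟨s, hs, t.erase e, h2, ?_⟩
      intro x
      simp only [mem_symmDiff, mem_erase]
      by_cases hx : x = e
      · subst hx; tauto
      · tauto
    · refine ⟨s, hs, t, ht, ?_⟩
      intro x
      simp only [mem_symmDiff, mem_erase]
      by_cases hx : x = e
      · subst hx; tauto
      · tauto
  · refine ⟨s, hs, t, ht, ?_⟩
    intro x
    simp only [mem_symmDiff, mem_erase]
    tauto

theorem lower_exists (D : Finset α → Prop) (hD : ∀ A B, A ⊆ B → D B → D A)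
    (U : Finset α) :
    ∀ (N : ℕ) (F : Finset (Finset α)), ∑ s ∈ F, s.card = N →
      (∀ s ∈ F, s ⊆ U) → (∀ s ∈ F, ∀ t ∈ F, D (symmDiff s t)) →
      ∃ F' : Finset (Finset α), F'.card = F.card ∧ (∀ s ∈ F', s ⊆ U) ∧
        (∀ s ∈ F', ∀ t ∈ F', D (symmDiff s t)) ∧ (∀ s ∈ F', ∀ e, s.erase e ∈ F') := by
  intro N
  induction N using Nat.strong_induction_on with
  | _ N ih =>
    intro F hN hU hP
    by_cases hl : ∀ s ∈ F, ∀ e, s.erase e ∈ F
    · exact ⟨F, rfl, hU, hP, hl⟩
    push Not at hl
    obtain ⟨s0, hs0, e, he⟩ := hl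
    have hcard : (F.image (phi F e)).card = F.card := card_image_of_injOn (phi_injOn F e)
    have hsum : ∑ t ∈ F.image (phi F e), t.card < N := by
      rw [Finset.sum_image (fun s hs t ht h => phi_injOn F e hs ht h), ← hN]
      apply Finset.sum_lt_sum
      · intro s _
        exact card_le_card (phi_sub F e s)
      · refine ⟨s0, hs0, ?_⟩
        unfold phi
        rw [if_neg he]
        exact card_erase_lt_of_mem (mem_of_erase_nmem hs0 he)
    obtain ⟨F', h1, h2, h3, h4⟩ := ih _ hsum (F.image (phi F e)) rfl (by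
        intro t ht
        rw [mem_image] at ht
        obtain ⟨s, hs, rfl⟩ := ht
        exact (phi_sub F e s).trans (hU s hs)) (by
        intro a ha b hb
        rw [mem_image] at ha hb
        obtain ⟨s, hs, rfl⟩ := ha
        obtain ⟨t, ht, rfl⟩ := hb
        obtain ⟨X, hX, Y, hY, hsub⟩ := phi_symmDiff F e hs ht
        exact hD _ _ hsub (hP X hX Y hY))
    exact ⟨F', h1.trans hcard, h2, h3, h4⟩

lemma lower_sub {F : Finset (Finset α)} (h : ∀ s ∈ F, ∀ e, s.erase e ∈ F) {A : Finset α}
    (hA : A ∈ F) (C : Finset α) : A \ C ∈ F := by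
  induction C using Finset.induction_on with
  | empty => simpa using hA
  | insert a s _ ih =>
    rw [sdiff_insert]
    exact h _ ih a

theorem union_exists (D : Finset α → Prop) (hD : ∀ A B, A ⊆ B → D B → D A)
    (U : Finset α) (F : Finset (Finset α)) (hU : ∀ s ∈ F, s ⊆ U)
    (hP : ∀ s ∈ F, ∀ t ∈ F, D (symmDiff s t)) :
    ∃ F' : Finset (Finset α), F'.card = F.card ∧ (∀ s ∈ F', s ⊆ U) ∧
      (∀ s ∈ F', ∀ t ∈ F', D (s ∪ t)) := by
  obtain ⟨F', h1, h2, h3, h4⟩ := lower_exists D hD U _ F rfl hU hP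
  refine ⟨F', h1, h2, ?_⟩
  intro s hs t ht
  have h5 := h3 s hs (t \ s) (lower_sub h4 ht s)
  have h6 : symmDiff s (t \ s) = s ∪ t := by
    ext x; simp only [mem_symmDiff, mem_sdiff, mem_union]; tauto
  rwa [h6] at h5

end

end Pool.Agent.Helper281.Kr
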