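import Mathlib

set_option autoImplicit false

namespace Pool.Agent.Helper281.Kr
open Finset

variable {V : Type} [Fintype V] [DecidableEq V]

/-- The pairs of distinct elements of `I`. -/
def KK (I : Finset V) : Finset (Sym2 V) := I.offDiag.image (Function.uncurry Sym2.mk)

/-- The pairs with one element in `I` and the other in `W`. -/
def BB (I W : Finset V) : Finset (Sym2 V) := (I ×ˢ W).image (Function.uncurry Sym2.mk)

omit [Fintype V] in
lemma mem_KK {I : Finset V} {a b : V} : s(a, b) ∈ KK I ↔ a ∈ I ∧ b ∈ I ∧ a ≠ b := by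
  unfold KK
  simp only [mem_image, mem_offDiag, Prod.exists, Function.uncurry_apply_pair]
  constructor
  · rintro ⟨x, y, ⟨hx, hy, hxy⟩, h⟩
    rw [Sym2.eq_iff] at h
    rcases h with ⟨rfl, rfl⟩ | ⟨rfl, rfl⟩
    · exact ⟨hx, hy, hxy⟩
    · exact ⟨hy, hx, hxy.symm⟩
  · rintro ⟨ha, hb, hab⟩
    exact ⟨a, b, ⟨ha, hb, hab⟩, rfl⟩

omit [Fintype V] in
lemma mem_BB {I W : Finset V} {a b : V} :
    s(a, b) ∈ BB I W ↔ (a ∈ I ∧ b ∈ W) ∨ (b ∈ I ∧ a ∈ W) := by
  unfold BB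
  simp only [mem_image, mem_product, Prod.exists, Function.uncurry_apply_pair]
  constructor
  · rintro ⟨x, y, ⟨hx, hy⟩, h⟩
    rw [Sym2.eq_iff] at h
    rcases h with ⟨rfl, rfl⟩ | ⟨rfl, rfl⟩
    · exact Or.inl ⟨hx, hy⟩
    · exact Or.inr ⟨hx, hy⟩
  · rintro (⟨ha, hb⟩ | ⟨hb, ha⟩)
    · exact ⟨a, b, ⟨ha, hb⟩, rfl⟩
    · exact ⟨b, a, ⟨hb, ha⟩, Sym2.eq_swap⟩

omit [Fintype V] in
lemma card_KK (I : Finset V) : (KK I).card = I.card.choose 2 := Sym2.card_image_offDiag I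

omit [Fintype V] in
lemma KK_inter (I J : Finset V) : KK I ∩ KK J = KK (I ∩ J) := by
  ext e
  induction e using Sym2.ind with
  | _ a b => simp only [mem_inter, mem_KK]; tauto

omit [Fintype V] in
lemma card_BB {I W : Finset V} (h : Disjoint I W) : (BB I W).card = I.card * W.card := by
  unfold BB
  rw [card_image_of_injOn, card_product]
  rintro ⟨a, b⟩ hab ⟨c, d⟩ hcd heq
  simp only [coe_product, Set.mem_prod, mem_coe] at hab hcd
  simp only [Function.uncurry_apply_pair, Sym2.eq_iff] at heq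
  rcases heq with ⟨rfl, rfl⟩ | ⟨rfl, rfl⟩
  · rfl
  · exact absurd hcd.2 (Finset.disjoint_left.mp h hab.1)

omit [Fintype V] in
lemma disj_KK_BB {I W : Finset V} (h : Disjoint I W) : Disjoint (KK I) (BB I W) := by
  rw [Finset.disjoint_left]
  intro e
  induction e using Sym2.ind with
  | _ a b =>
    rw [mem_KK, mem_BB]
    rintro ⟨ha, hb, _⟩ (⟨_, h2⟩ | ⟨_, h2⟩)
    · exact Finset.disjoint_left.mp h hb h2
    · exact Finset.disjoint_left.mp h ha h2

lemma choose_two_ineq (r m : ℕ) (h : m ≤ r) :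
    (r - m).choose 2 + m * ((r - 1) / 2) ≤ r.choose 2 := by
  rcases Nat.eq_zero_or_pos r with h0 | h0
  · subst h0
    have : m = 0 := by omega
    subst this; simp
  have hw : (2 * (((r - 1) / 2 : ℕ) : ℝ)) ≤ (r : ℝ) - 1 := by
    have h1 : 2 * ((r - 1) / 2) ≤ r - 1 := by omega
    have h2 : ((2 * ((r - 1) / 2) : ℕ) : ℝ) ≤ ((r - 1 : ℕ) : ℝ) := by exact_mod_cast h1
    rw [Nat.cast_sub h0] at h2
    push_cast at h2
    push_cast
    linarith
  have key : (((r - m).choose 2 + m * ((r - 1) / 2) : ℕ) : ℝ) ≤ ((r.choose 2 : ℕ) : ℝ) := by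
    rw [Nat.cast_add, Nat.cast_mul, Nat.cast_choose_two, Nat.cast_choose_two, Nat.cast_sub h]
    have hm : (0 : ℝ) ≤ m := Nat.cast_nonneg m
    have hmr : (m : ℝ) ≤ r := by exact_mod_cast h
    nlinarith [mul_le_mul_of_nonneg_left hw hm, mul_nonneg hm (sub_nonneg.mpr hmr)]
  exact_mod_cast key

omit [Fintype V] in
lemma card_union_ge (r : ℕ) (I J : Finset V) (hI : I.card = r) (hJ : J.card = r) :
    r.choose 2 + (J \ I).card * ((r - 1) / 2) ≤ (KK I ∪ KK J).card := by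
  have h1 := Finset.card_union_add_card_inter (KK I) (KK J)
  rw [KK_inter, card_KK, card_KK, card_KK, hI, hJ] at h1
  have h2 := Finset.card_sdiff_add_card_inter J I
  rw [hJ, Finset.inter_comm] at h2
  have h3 : (I ∩ J).card = r - (J \ I).card := by omega
  have h4 := choose_two_ineq r (J \ I).card (by omega)
  rw [h3] at h1
  omega

lemma cardUp {α : Type} [DecidableEq α] {S U : Finset α} (h : S ⊆ U) :
    ((Icc S U).card : ℝ) = 2 ^ U.card * (1 / 2 : ℝ) ^ S.card := by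
  rw [Finset.card_Icc_finset h]
  have h1 : S.card ≤ U.card := Finset.card_le_card h
  have h2 : (2 : ℝ) ^ U.card = 2 ^ (U.card - S.card) * 2 ^ S.card := by
    rw [← pow_add]; congr 1; omega
  push_cast
  rw [h2, mul_assoc, ← mul_pow]
  norm_num

lemma choose_aux (N j : ℕ) (hj : j ≤ N) :
    ((N.choose j : ℕ) : ℝ) ≤ (16 / 15 : ℝ) ^ N * 15 ^ j := by
  have h1 : ((15 : ℝ) + 1) ^ N = ∑ m ∈ range (N + 1), 15 ^ m * 1 ^ (N - m) * (N.choose m : ℝ) :=
    add_pow _ _ _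
  have h2 : (15 : ℝ) ^ (N - j) * 1 ^ (N - (N - j)) * ((N.choose (N - j) : ℕ) : ℝ)
      ≤ ∑ m ∈ range (N + 1), 15 ^ m * 1 ^ (N - m) * (N.choose m : ℝ) :=
    Finset.single_le_sum (f := fun m => (15 : ℝ) ^ m * 1 ^ (N - m) * (N.choose m : ℝ))
      (fun i _ => by positivity) (by simp)
  rw [← h1, one_pow, mul_one, Nat.choose_symm hj] at h2
  norm_num at h2
  have h3 : (15 : ℝ) ^ N = 15 ^ (N - j) * 15 ^ j := by
    rw [← pow_add]; congr 1; omega
  rw [div_pow, div_mul_eq_mul_div, le_div_iff₀ (by positivity), h3]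
  have h4 : (0 : ℝ) < 15 ^ j := by positivity
  nlinarith [mul_le_mul_of_nonneg_right h2 h4.le]

lemma base_le : ((16 / 15 : ℝ)) ^ 10 ≤ 2 := by norm_num

lemma choose_bound (N j : ℕ) (hj : j ≤ N) (hN : N ≤ 20 * j) :
    ((N.choose j : ℕ) : ℝ) ≤ 2 ^ (6 * j) := by
  have h1 := choose_aux N j hj
  have h2 : (16 / 15 : ℝ) ^ N ≤ (16 / 15 : ℝ) ^ (20 * j) :=
    pow_le_pow_right₀ (by norm_num) hN
  have h3 : (16 / 15 : ℝ) ^ (20 * j) ≤ 2 ^ (2 * j) := by
    have : 20 * j = 10 * (2 * j) := by ring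
    rw [this, pow_mul]
    exact pow_le_pow_left₀ (by positivity) base_le _
  have h4 : (15 : ℝ) ^ j ≤ 2 ^ (4 * j) := by
    rw [pow_mul]
    exact pow_le_pow_left₀ (by norm_num) (by norm_num) _
  calc ((N.choose j : ℕ) : ℝ) ≤ (16 / 15 : ℝ) ^ N * 15 ^ j := h1
    _ ≤ 2 ^ (2 * j) * 2 ^ (4 * j) := by
        apply mul_le_mul (h2.trans h3) h4 (by positivity) (by positivity)
    _ = 2 ^ (6 * j) := by rw [← pow_add]; congr 1; ring

lemma choose_bound' (N k : ℕ) (hj : k ≤ N) (hN : N ≤ 30 * k) :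
    ((N.choose k : ℕ) : ℝ) ≤ 2 ^ (7 * k) := by
  have h1 := choose_aux N k hj
  have h2 : (16 / 15 : ℝ) ^ N ≤ (16 / 15 : ℝ) ^ (30 * k) :=
    pow_le_pow_right₀ (by norm_num) hN
  have h3 : (16 / 15 : ℝ) ^ (30 * k) ≤ 2 ^ (3 * k) := by
    have : 30 * k = 10 * (3 * k) := by ring
    rw [this, pow_mul]
    exact pow_le_pow_left₀ (by positivity) base_le _
  have h4 : (15 : ℝ) ^ k ≤ 2 ^ (4 * k) := by
    rw [pow_mul]
    exact pow_le_pow_left₀ (by norm_num) (by norm_num) _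
  calc ((N.choose k : ℕ) : ℝ) ≤ (16 / 15 : ℝ) ^ N * 15 ^ k := h1
    _ ≤ 2 ^ (3 * k) * 2 ^ (4 * k) := by
        apply mul_le_mul (h2.trans h3) h4 (by positivity) (by positivity)
    _ = 2 ^ (7 * k) := by rw [← pow_add]; congr 1; ring

end Pool.Agent.Helper281.Kr
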