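import Mathlib
import Pool.Agent.Helper281.Kr.Basic

set_option autoImplicit false

namespace Pool.Agent.Helper281.Kr
open Finset

variable {V : Type} [Fintype V] [DecidableEq V]

omit [Fintype V] in
lemma sdiff_card_eq {r : ℕ} {I J : Finset V} (hI : I.card = r) (hJ : J.card = r) :
    (I \ J).card = (J \ I).card := by
  have h1 := Finset.card_sdiff_add_card_inter J I
  have h2 := Finset.card_sdiff_add_card_inter I J
  rw [Finset.inter_comm] at h1
  omega

lemma card_level (r m L : ℕ) (I : Finset V) (hn : Fintype.card V ≤ 2 ^ L) (hI : I.card = r) :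
    (((powersetCard r (univ : Finset V)).filter (fun J => (J \ I).card = m)).card : ℝ)
      ≤ 2 ^ (2 * L * m) := by
  have h1 : ((powersetCard r (univ : Finset V)).filter (fun J => (J \ I).card = m)).card
      ≤ ((powersetCard m (univ : Finset V)) ×ˢ (powersetCard m (univ : Finset V))).card := by
    apply Finset.card_le_card_of_injOn (fun J => (I \ J, J \ I))
    · intro J hJ
      simp only [coe_filter, mem_powersetCard, subset_univ, true_and, Set.mem_setOf_eq] at hJ
      simp only [coe_product, Set.mem_prod, mem_coe, mem_powersetCard, subset_univ, true_and]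
      exact ⟨(sdiff_card_eq hI hJ.1).trans hJ.2, hJ.2⟩
    · intro J hJ J' hJ' h
      simp only [Prod.mk.injEq] at h
      have e1 : J = (I \ (I \ J)) ∪ (J \ I) := by
        ext x; simp only [mem_union, mem_sdiff]; tauto
      have e2 : J' = (I \ (I \ J')) ∪ (J' \ I) := by
        ext x; simp only [mem_union, mem_sdiff]; tauto
      rw [e1, e2, h.1, h.2]
  rw [card_product, card_powersetCard, card_univ] at h1
  have h2 : (Fintype.card V).choose m ≤ (2 ^ L) ^ m :=
    (Nat.choose_le_pow _ _).trans (Nat.pow_le_pow_left hn m)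
  have h3 : ((powersetCard r (univ : Finset V)).filter (fun J => (J \ I).card = m)).card
      ≤ 2 ^ (2 * L * m) := by
    calc _ ≤ (Fintype.card V).choose m * (Fintype.card V).choose m := h1
      _ ≤ (2 ^ L) ^ m * (2 ^ L) ^ m := Nat.mul_le_mul h2 h2
      _ = 2 ^ (2 * L * m) := by rw [← pow_mul, ← pow_add]; congr 1; ring
  exact_mod_cast h3

lemma sumX (r m1 L : ℕ) (I : Finset V) (hn : Fintype.card V ≤ 2 ^ L) (hI : I.card = r)
    (hm1 : 1 ≤ m1) (hw : 2 * L ≤ (r - 1) / 2) :
    ∑ J ∈ (powersetCard r (univ : Finset V)).filter (fun J => m1 ≤ (J \ I).card),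
      (1 / 2 : ℝ) ^ (KK I ∪ KK J).card
    ≤ 2 ^ L * ((1 / 2 : ℝ) ^ (r.choose 2) * (1 / 2 : ℝ) ^ (((r - 1) / 2 - 2 * L) * m1)) := by
  set w := (r - 1) / 2 with hwdef
  set S := (powersetCard r (univ : Finset V)).filter (fun J => m1 ≤ (J \ I).card) with hS
  have hmaps : ∀ J ∈ S, (J \ I).card ∈ Icc m1 r := by
    intro J hJ
    simp only [hS, mem_filter, mem_powersetCard, subset_univ, true_and] at hJ
    rw [mem_Icc]
    refine ⟨hJ.2, ?_⟩
    calc (J \ I).card ≤ J.card := card_le_card sdiff_subset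
      _ = r := hJ.1
  rw [← Finset.sum_fiberwise_of_maps_to hmaps]
  have hterm : ∀ m ∈ Icc m1 r, ∑ J ∈ S with (J \ I).card = m, (1 / 2 : ℝ) ^ (KK I ∪ KK J).card
      ≤ (1 / 2 : ℝ) ^ (r.choose 2) * (1 / 2 : ℝ) ^ ((w - 2 * L) * m1) := by
    intro m hm
    rw [mem_Icc] at hm
    have h1 : ∑ J ∈ S with (J \ I).card = m, (1 / 2 : ℝ) ^ (KK I ∪ KK J).card
        ≤ ∑ J ∈ S with (J \ I).card = m, (1 / 2 : ℝ) ^ (r.choose 2 + m * w) := by
      apply Finset.sum_le_sum
      intro J hJ
      simp only [hS, mem_filter, mem_powersetCard, subset_univ, true_and] at hJ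
      apply pow_le_pow_of_le_one (by norm_num) (by norm_num)
      have := card_union_ge r I J hI hJ.1.1
      rw [hJ.2] at this
      exact this
    have h2 : ((S.filter (fun J => (J \ I).card = m)).card : ℝ) ≤ 2 ^ (2 * L * m) := by
      refine le_trans ?_ (card_level r m L I hn hI)
      have : S.filter (fun J => (J \ I).card = m)
          ⊆ (powersetCard r (univ : Finset V)).filter (fun J => (J \ I).card = m) := by
        intro J hJ
        simp only [hS, mem_filter] at hJ ⊢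
        exact ⟨hJ.1.1, hJ.2⟩
      exact_mod_cast card_le_card this
    refine h1.trans ?_
    rw [Finset.sum_const, nsmul_eq_mul]
    have h3 : (1 / 2 : ℝ) ^ (r.choose 2 + m * w) =
        (1 / 2 : ℝ) ^ (r.choose 2) * ((1 / 2 : ℝ) ^ (2 * L * m) * (1 / 2 : ℝ) ^ ((w - 2 * L) * m)) := by
      rw [← pow_add, ← pow_add]
      congr 2
      obtain ⟨d, hd⟩ := Nat.exists_eq_add_of_le hw
      rw [hd, Nat.add_sub_cancel_left]
      ring
    rw [h3]
    have h4 : (2 : ℝ) ^ (2 * L * m) * (1 / 2 : ℝ) ^ (2 * L * m) = 1 := by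
      rw [← mul_pow]; norm_num
    have h5 : (1 / 2 : ℝ) ^ ((w - 2 * L) * m) ≤ (1 / 2 : ℝ) ^ ((w - 2 * L) * m1) := by
      apply pow_le_pow_of_le_one (by norm_num) (by norm_num)
      exact Nat.mul_le_mul_left _ hm.1
    calc ((S.filter (fun J => (J \ I).card = m)).card : ℝ) *
          ((1 / 2 : ℝ) ^ (r.choose 2) * ((1 / 2 : ℝ) ^ (2 * L * m) * (1 / 2 : ℝ) ^ ((w - 2 * L) * m)))
        ≤ 2 ^ (2 * L * m) *
          ((1 / 2 : ℝ) ^ (r.choose 2) * ((1 / 2 : ℝ) ^ (2 * L * m) * (1 / 2 : ℝ) ^ ((w - 2 * L) * m))) := by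
          apply mul_le_mul_of_nonneg_right h2 (by positivity)
      _ = (2 ^ (2 * L * m) * (1 / 2 : ℝ) ^ (2 * L * m)) *
          ((1 / 2 : ℝ) ^ (r.choose 2) * (1 / 2 : ℝ) ^ ((w - 2 * L) * m)) := by ring
      _ = (1 / 2 : ℝ) ^ (r.choose 2) * (1 / 2 : ℝ) ^ ((w - 2 * L) * m) := by rw [h4, one_mul]
      _ ≤ _ := mul_le_mul_of_nonneg_left h5 (by positivity)
  have hsum := Finset.sum_le_sum hterm
  refine hsum.trans ?_
  rw [Finset.sum_const, nsmul_eq_mul, Nat.card_Icc]
  apply mul_le_mul_of_nonneg_right _ (by positivity)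
  have hrV : r ≤ 2 ^ L := by
    rw [← hI]; exact (card_le_univ I).trans hn
  have : r + 1 - m1 ≤ 2 ^ L := by omega
  exact_mod_cast this

end Pool.Agent.Helper281.Kr
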