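import Mathlib
import Pool.Agent.Helper281.Kr.Core

set_option autoImplicit false

namespace Pool.Agent.Helper281.Kr
open Finset

variable {V : Type} [Fintype V] [DecidableEq V]

lemma biU {ι α : Type} [DecidableEq α] (s : Finset ι) (t : ι → Finset α) :
    ((s.biUnion t).card : ℝ) ≤ ∑ a ∈ s, ((t a).card : ℝ) := by
  have := card_biUnion_le (s := s) (t := t)
  exact_mod_cast this

/-- the r-sets -/
abbrev RR (V : Type) [Fintype V] [DecidableEq V] (r : ℕ) : Finset (Finset V) :=
  powersetCard r (univ : Finset V)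

/-- families containing two far apart cliques -/
def Bad1 (V : Type) [Fintype V] [DecidableEq V] (r k : ℕ) : Finset (Finset (Sym2 V)) :=
  (RR V r).biUnion fun I => ((RR V r).filter (fun J => k + 1 ≤ (J \ I).card)).biUnion
    fun J => Icc (KK I ∪ KK J) (KK (univ : Finset V))

/-- families with a clique and many vertices joined to almost all of it -/
def Bad2 (V : Type) [Fintype V] [DecidableEq V] (r k : ℕ) : Finset (Finset (Sym2 V)) :=
  (RR V r).biUnion fun I => ((RR V k).filter (fun W => Disjoint I W)).biUnion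
    fun W => (powersetCard (k * k) (BB I W)).biUnion
    fun T => Icc (KK I ∪ (BB I W \ T)) (KK (univ : Finset V))

lemma KK_sub (I : Finset V) : KK I ⊆ KK (univ : Finset V) := by
  intro e
  induction e using Sym2.ind with
  | _ a b => simp only [mem_KK, mem_univ, true_and]; tauto

lemma BB_sub {I W : Finset V} (h : Disjoint I W) : BB I W ⊆ KK (univ : Finset V) := by
  intro e
  induction e using Sym2.ind with
  | _ a b =>
    simp only [mem_KK, mem_BB, mem_univ, true_and]
    rintro (⟨h1, h2⟩ | ⟨h1, h2⟩) rfl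
    · exact Finset.disjoint_left.mp h h1 h2
    · exact Finset.disjoint_left.mp h h1 h2

lemma card_RR_le (r L : ℕ) (hn : Fintype.card V ≤ 2 ^ L) :
    ((RR V r).card : ℝ) ≤ 2 ^ (L * r) := by
  have : (RR V r).card ≤ 2 ^ (L * r) := by
    rw [card_powersetCard, card_univ, pow_mul]
    exact (Nat.choose_le_pow _ _).trans (Nat.pow_le_pow_left hn r)
  exact_mod_cast this

lemma card_Bad1 (r k L : ℕ) (hn : Fintype.card V ≤ 2 ^ L) (hw : 2 * L ≤ (r - 1) / 2) :
    ((Bad1 V r k).card : ℝ) ≤ 2 ^ (L * r) * (2 ^ (KK (univ : Finset V)).card *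
      (2 ^ L * ((1 / 2 : ℝ) ^ (r.choose 2) *
        (1 / 2 : ℝ) ^ (((r - 1) / 2 - 2 * L) * (k + 1))))) := by
  unfold Bad1
  refine (biU _ _).trans ?_
  have h1 : ∀ I ∈ RR V r, ((((RR V r).filter (fun J => k + 1 ≤ (J \ I).card)).biUnion
      fun J => Icc (KK I ∪ KK J) (KK (univ : Finset V))).card : ℝ) ≤
      (2 ^ (KK (univ : Finset V)).card *
      (2 ^ L * ((1 / 2 : ℝ) ^ (r.choose 2) *
        (1 / 2 : ℝ) ^ (((r - 1) / 2 - 2 * L) * (k + 1))))) := by
    intro I hI
    have hIc : I.card = r := (mem_powersetCard.mp hI).2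
    refine (biU _ _).trans ?_
    have h2 : ∀ J ∈ (RR V r).filter (fun J => k + 1 ≤ (J \ I).card),
        ((Icc (KK I ∪ KK J) (KK (univ : Finset V))).card : ℝ) =
        2 ^ (KK (univ : Finset V)).card * (1 / 2 : ℝ) ^ (KK I ∪ KK J).card := by
      intro J _
      exact cardUp (union_subset (KK_sub I) (KK_sub J))
    rw [Finset.sum_congr rfl h2, ← Finset.mul_sum]
    apply mul_le_mul_of_nonneg_left _ (by positivity)
    exact sumX r (k + 1) L I hn hIc (by omega) hw
  refine (Finset.sum_le_sum h1).trans ?_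
  rw [Finset.sum_const, nsmul_eq_mul]
  apply mul_le_mul_of_nonneg_right (card_RR_le r L hn) (by positivity)

lemma card_Bad2 (r k L : ℕ) (hn : Fintype.card V ≤ 2 ^ L) (hr1 : k ≤ r) (hr2 : r ≤ 20 * k) :
    ((Bad2 V r k).card : ℝ) ≤ 2 ^ (L * r) * (2 ^ (L * k) * (2 ^ (6 * (k * k)) *
      (2 ^ (KK (univ : Finset V)).card * ((1 / 2 : ℝ) ^ (r.choose 2 + (r * k - k * k)))))) := by
  unfold Bad2
  refine (biU _ _).trans ?_
  have h1 : ∀ I ∈ RR V r, ((((RR V k).filter (fun W => Disjoint I W)).biUnion
    fun W => (powersetCard (k * k) (BB I W)).biUnion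
    fun T => Icc (KK I ∪ (BB I W \ T)) (KK (univ : Finset V))).card : ℝ) ≤
      (2 ^ (L * k) * (2 ^ (6 * (k * k)) *
      (2 ^ (KK (univ : Finset V)).card * ((1 / 2 : ℝ) ^ (r.choose 2 + (r * k - k * k)))))) := by
    intro I hI
    have hIc : I.card = r := (mem_powersetCard.mp hI).2
    refine (biU _ _).trans ?_
    have h2 : ∀ W ∈ (RR V k).filter (fun W => Disjoint I W),
        (((powersetCard (k * k) (BB I W)).biUnion
          fun T => Icc (KK I ∪ (BB I W \ T)) (KK (univ : Finset V))).card : ℝ) ≤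
        (2 ^ (6 * (k * k)) *
      (2 ^ (KK (univ : Finset V)).card * ((1 / 2 : ℝ) ^ (r.choose 2 + (r * k - k * k))))) := by
      intro W hW
      rw [mem_filter, mem_powersetCard] at hW
      have hWc : W.card = k := hW.1.2
      have hdis : Disjoint I W := hW.2
      refine (biU _ _).trans ?_
      have h3 : ∀ T ∈ powersetCard (k * k) (BB I W),
          ((Icc (KK I ∪ (BB I W \ T)) (KK (univ : Finset V))).card : ℝ) =
          (2 ^ (KK (univ : Finset V)).card * ((1 / 2 : ℝ) ^ (r.choose 2 + (r * k - k * k)))) := by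
        intro T hT
        rw [mem_powersetCard] at hT
        rw [cardUp (union_subset (KK_sub I) (sdiff_subset.trans (BB_sub hdis)))]
        congr 2
        rw [card_union_of_disjoint ((disj_KK_BB hdis).mono_right sdiff_subset), card_KK, hIc,
          card_sdiff_of_subset hT.1, card_BB hdis, hIc, hWc, hT.2]
      rw [Finset.sum_congr rfl h3, Finset.sum_const, nsmul_eq_mul]
      apply mul_le_mul_of_nonneg_right _ (by positivity)
      rw [card_powersetCard, card_BB hdis, hIc, hWc]
      exact choose_bound (r * k) (k * k) (Nat.mul_le_mul_right k hr1)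
        (by calc r * k ≤ 20 * k * k := Nat.mul_le_mul_right k hr2
              _ = 20 * (k * k) := by ring)
    refine (Finset.sum_le_sum h2).trans ?_
    rw [Finset.sum_const, nsmul_eq_mul]
    apply mul_le_mul_of_nonneg_right _ (by positivity)
    refine le_trans ?_ (card_RR_le (V := V) k L hn)
    exact_mod_cast card_filter_le _ _
  refine (Finset.sum_le_sum h1).trans ?_
  rw [Finset.sum_const, nsmul_eq_mul]
  apply mul_le_mul_of_nonneg_right (card_RR_le r L hn) (by positivity)

/-- a good set of pairs contains few r-cliques -/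
lemma good_few (r k : ℕ) (hr1 : 16 * k ≤ r) (hr2 : r ≤ 20 * k)
    (G : Finset (Sym2 V)) (hGU : G ⊆ KK (univ : Finset V))
    (hb1 : G ∉ Bad1 V r k) (hb2 : G ∉ Bad2 V r k) :
    (((RR V r).filter (fun I => KK I ⊆ G)).card : ℝ) ≤ 2 ^ (7 * k) := by
  rcases ((RR V r).filter (fun I => KK I ⊆ G)).eq_empty_or_nonempty with he | ⟨I0, hI0⟩
  · rw [he]; simp
  rw [mem_filter, mem_powersetCard] at hI0
  have hI0c : I0.card = r := hI0.1.2
  have hI0G : KK I0 ⊆ G := hI0.2
  have hdist : ∀ J, J.card = r → KK J ⊆ G → (J \ I0).card ≤ k := by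
    intro J hJ hJG
    by_contra hlt
    apply hb1
    unfold Bad1
    rw [mem_biUnion]
    refine ⟨I0, by rw [mem_powersetCard]; exact ⟨subset_univ _, hI0c⟩, ?_⟩
    rw [mem_biUnion]
    refine ⟨J, ?_, ?_⟩
    · rw [mem_filter, mem_powersetCard]; exact ⟨⟨subset_univ _, hJ⟩, by omega⟩
    · rw [mem_Icc]; exact ⟨union_subset hI0G hJG, hGU⟩
  set W : Finset V := (univ \ I0).filter (fun u => ∃ J, J.card = r ∧ KK J ⊆ G ∧ u ∈ J) with hW
  have hWk : W.card ≤ k := by
    by_contra hlt
    obtain ⟨W', hW'W, hW'c⟩ := Finset.exists_subset_card_eq (show k ≤ W.card by omega)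
    have hdis : Disjoint I0 W' := by
      rw [Finset.disjoint_left]
      intro a ha ha'
      have := hW'W ha'
      simp only [hW, mem_filter, mem_sdiff] at this
      exact this.1.2 ha
    have hJ : ∀ u ∈ W', ∃ J, J.card = r ∧ KK J ⊆ G ∧ u ∈ J := by
      intro u hu
      have := hW'W hu
      simp only [hW, mem_filter] at this
      exact this.2
    choose! JJ hJJ using hJ
    have hsub : BB I0 W' \ G ⊆ W'.biUnion (fun u => (I0 \ JJ u).image (fun a => s(a, u))) := by
      intro e
      induction e using Sym2.ind with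
      | _ a b =>
        intro he
        rw [mem_sdiff, mem_BB] at he
        obtain ⟨h1, h2⟩ := he
        rcases h1 with ⟨ha, hb⟩ | ⟨hb, ha⟩
        · rw [mem_biUnion]
          refine ⟨b, hb, ?_⟩
          rw [mem_image]
          refine ⟨a, ?_, rfl⟩
          rw [mem_sdiff]
          refine ⟨ha, fun haJ => h2 ?_⟩
          apply (hJJ b hb).2.1
          rw [mem_KK]
          refine ⟨haJ, (hJJ b hb).2.2, ?_⟩
          rintro rfl
          exact Finset.disjoint_left.mp hdis ha hb
        · rw [mem_biUnion]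
          refine ⟨a, ha, ?_⟩
          rw [mem_image]
          refine ⟨b, ?_, Sym2.eq_swap⟩
          rw [mem_sdiff]
          refine ⟨hb, fun hbJ => h2 ?_⟩
          apply (hJJ a ha).2.1
          rw [mem_KK]
          refine ⟨(hJJ a ha).2.2, hbJ, ?_⟩
          rintro rfl
          exact Finset.disjoint_left.mp hdis hb ha
    have hcard : (BB I0 W' \ G).card ≤ k * k := by
      calc (BB I0 W' \ G).card ≤ _ := card_le_card hsub
        _ ≤ ∑ u ∈ W', ((I0 \ JJ u).image (fun a => s(a, u))).card := card_biUnion_le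
        _ ≤ ∑ u ∈ W', k := by
            apply Finset.sum_le_sum
            intro u hu
            refine card_image_le.trans ?_
            rw [sdiff_card_eq hI0c (hJJ u hu).1]
            exact hdist _ (hJJ u hu).1 (hJJ u hu).2.1
        _ = k * k := by rw [Finset.sum_const, hW'c, smul_eq_mul]
    obtain ⟨T, hT1, hT2, hT3⟩ := Finset.exists_subsuperset_card_eq
      (s := BB I0 W' \ G) (t := BB I0 W') (n := k * k) sdiff_subset hcard
      (by rw [card_BB hdis, hI0c, hW'c]; exact Nat.mul_le_mul_right k (by omega))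
    apply hb2
    unfold Bad2
    rw [mem_biUnion]
    refine ⟨I0, by rw [mem_powersetCard]; exact ⟨subset_univ _, hI0c⟩, ?_⟩
    rw [mem_biUnion]
    refine ⟨W', by rw [mem_filter, mem_powersetCard]; exact ⟨⟨subset_univ _, hW'c⟩, hdis⟩, ?_⟩
    rw [mem_biUnion]
    refine ⟨T, by rw [mem_powersetCard]; exact ⟨hT2, hT3⟩, ?_⟩
    rw [mem_Icc]
    refine ⟨union_subset hI0G ?_, hGU⟩
    intro e he
    rw [mem_sdiff] at he
    by_contra hne
    exact he.2 (hT1 (mem_sdiff.mpr ⟨he.1, hne⟩))
  have hsub : (RR V r).filter (fun I => KK I ⊆ G) ⊆ powersetCard r (I0 ∪ W) := by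
    intro J hJ
    rw [mem_filter, mem_powersetCard] at hJ
    rw [mem_powersetCard]
    refine ⟨?_, hJ.1.2⟩
    intro x hx
    rw [mem_union]
    by_cases hxI : x ∈ I0
    · exact Or.inl hxI
    · right
      simp only [hW, mem_filter, mem_sdiff, mem_univ, true_and]
      exact ⟨hxI, J, hJ.1.2, hJ.2, hx⟩
  have h1 := card_le_card hsub
  rw [card_powersetCard] at h1
  have h2 : (I0 ∪ W).card ≤ r + k := by
    calc (I0 ∪ W).card ≤ I0.card + W.card := card_union_le _ _
      _ ≤ r + k := by omega
  have h3 : ((RR V r).filter (fun I => KK I ⊆ G)).card ≤ (r + k).choose k := by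
    refine h1.trans ((Nat.choose_le_choose r h2).trans ?_)
    rw [Nat.choose_symm_add]
  refine le_trans (by exact_mod_cast h3) (choose_bound' (r + k) k (by omega) (by omega))

end Pool.Agent.Helper281.Kr
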