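import Mathlib
import Pool.Agent.Helper281.Kr.Main

set_option autoImplicit false

namespace Pool.Agent.Helper281.Kr
open Finset

variable {V : Type} [Fintype V] [DecidableEq V]

lemma pow_le_one' {a b : ℕ} (h : a ≤ b) : (2 : ℝ) ^ a * (1 / 2 : ℝ) ^ b ≤ 1 := by
  obtain ⟨c, rfl⟩ := Nat.exists_eq_add_of_le h
  rw [pow_add, ← mul_assoc, ← mul_pow]
  have : ((2 : ℝ) * (1 / 2)) ^ a = 1 := by norm_num
  rw [this, one_mul]
  exact pow_le_one₀ (by norm_num) (by norm_num)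

lemma pow_le_half {a b : ℕ} (h : a + 1 ≤ b) : (2 : ℝ) ^ a * (1 / 2 : ℝ) ^ b ≤ 1 / 2 := by
  obtain ⟨c, rfl⟩ := Nat.exists_eq_add_of_le h
  have h1 := pow_le_one' (le_refl (a + c)) 
  have h2 : (2 : ℝ) ^ a * (1 / 2 : ℝ) ^ (a + 1 + c) = (1 / 2) * ((2 : ℝ) ^ a * (1 / 2 : ℝ) ^ (a + c)) := by
    rw [show a + 1 + c = (a + c) + 1 by ring, pow_succ]; ring
  rw [h2]
  have h3 := pow_le_one' (show a ≤ a + c by omega)
  linarith

theorem core (F : Finset (Finset (Sym2 V))) (hFU : ∀ G ∈ F, G ⊆ KK (univ : Finset V))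
    (r L k : ℕ) (hn : Fintype.card V ≤ 2 ^ L) (hL : 1 ≤ L) (hk : 4 * L ≤ k)
    (hr1 : 16 * k ≤ r) (hr2 : r ≤ 20 * k)
    (hint : ∀ G ∈ F, ∀ H ∈ F, ∃ I : Finset V, I.card = r ∧ KK I ⊆ G ∧ KK I ⊆ H) :
    (F.card : ℝ) ≤ 2 ^ (KK (univ : Finset V)).card * (1 / 2 : ℝ) ^ (r.choose 2) := by
  have hw : 8 * k - 1 ≤ (r - 1) / 2 := by omega
  have hw2 : 2 * L ≤ (r - 1) / 2 := by omega
  by_cases h0 : ∃ I : Finset V, I.card = r ∧ ∀ G ∈ F, KK I ⊆ G
  · obtain ⟨I, hI, hIF⟩ := h0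
    have h1 : F ⊆ Icc (KK I) (KK (univ : Finset V)) := by
      intro G hG
      rw [mem_Icc]
      exact ⟨hIF G hG, hFU G hG⟩
    have h2 : (F.card : ℝ) ≤ ((Icc (KK I) (KK (univ : Finset V))).card : ℝ) := by
      exact_mod_cast card_le_card h1
    rwa [cardUp (KK_sub I), card_KK I, hI] at h2
  push Not at h0
  by_cases hg : ∃ G1 ∈ F, G1 ∉ Bad1 V r k ∧ G1 ∉ Bad2 V r k
  · obtain ⟨G1, hG1, hb1, hb2⟩ := hg
    have hsub : F ⊆ ((RR V r).filter (fun I => KK I ⊆ G1)).biUnion fun I =>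
        ((RR V r).filter (fun J => 1 ≤ (J \ I).card)).biUnion
        fun J => Icc (KK I ∪ KK J) (KK (univ : Finset V)) := by
      intro G hG
      obtain ⟨I, hIc, hIG, hIG1⟩ := hint G hG G1 hG1
      obtain ⟨G2, hG2, hIG2⟩ := h0 I hIc
      obtain ⟨J, hJc, hJG, hJG2⟩ := hint G hG G2 hG2
      rw [mem_biUnion]
      refine ⟨I, by rw [mem_filter, mem_powersetCard]; exact ⟨⟨subset_univ _, hIc⟩, hIG1⟩, ?_⟩
      rw [mem_biUnion]
      refine ⟨J, ?_, ?_⟩
      · rw [mem_filter, mem_powersetCard]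
        refine ⟨⟨subset_univ _, hJc⟩, ?_⟩
        by_contra hlt
        have h1 : (J \ I).card = 0 := by omega
        rw [card_eq_zero, sdiff_eq_empty_iff_subset] at h1
        have h2 : J = I := Finset.eq_of_subset_of_card_le h1 (by rw [hIc, hJc])
        rw [h2] at hJG2
        exact hIG2 hJG2
      · rw [mem_Icc]
        exact ⟨union_subset hIG hJG, hFU G hG⟩
    have h1 : (F.card : ℝ) ≤ ∑ I ∈ (RR V r).filter (fun I => KK I ⊆ G1),
        ((((RR V r).filter (fun J => 1 ≤ (J \ I).card)).biUnion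
        fun J => Icc (KK I ∪ KK J) (KK (univ : Finset V))).card : ℝ) :=
      le_trans (by exact_mod_cast card_le_card hsub) (biU _ _)
    refine h1.trans ?_
    have h2 : ∀ I ∈ (RR V r).filter (fun I => KK I ⊆ G1),
        ((((RR V r).filter (fun J => 1 ≤ (J \ I).card)).biUnion
        fun J => Icc (KK I ∪ KK J) (KK (univ : Finset V))).card : ℝ) ≤
        2 ^ (KK (univ : Finset V)).card * (2 ^ L * ((1 / 2 : ℝ) ^ (r.choose 2) *
          (1 / 2 : ℝ) ^ (((r - 1) / 2 - 2 * L) * 1))) := by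
      intro I hI
      rw [mem_filter, mem_powersetCard] at hI
      refine (biU _ _).trans ?_
      have h3 : ∀ J ∈ (RR V r).filter (fun J => 1 ≤ (J \ I).card),
          ((Icc (KK I ∪ KK J) (KK (univ : Finset V))).card : ℝ) =
          2 ^ (KK (univ : Finset V)).card * (1 / 2 : ℝ) ^ (KK I ∪ KK J).card := by
        intro J _
        exact cardUp (union_subset (KK_sub I) (KK_sub J))
      rw [Finset.sum_congr rfl h3, ← Finset.mul_sum]
      apply mul_le_mul_of_nonneg_left _ (by positivity)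
      exact sumX r 1 L I hn hI.1.2 le_rfl hw2
    refine (Finset.sum_le_sum h2).trans ?_
    rw [Finset.sum_const, nsmul_eq_mul]
    have h4 := good_few r k hr1 hr2 G1 (hFU G1 hG1) hb1 hb2
    calc _ ≤ (2 : ℝ) ^ (7 * k) * (2 ^ (KK (univ : Finset V)).card *
          (2 ^ L * ((1 / 2 : ℝ) ^ (r.choose 2) *
          (1 / 2 : ℝ) ^ (((r - 1) / 2 - 2 * L) * 1)))) :=
          mul_le_mul_of_nonneg_right h4 (by positivity)
      _ = (2 ^ (KK (univ : Finset V)).card * (1 / 2 : ℝ) ^ (r.choose 2)) *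
          ((2 : ℝ) ^ (7 * k + L) * (1 / 2 : ℝ) ^ ((r - 1) / 2 - 2 * L)) := by
          rw [mul_one, pow_add]; ring
      _ ≤ (2 ^ (KK (univ : Finset V)).card * (1 / 2 : ℝ) ^ (r.choose 2)) * 1 := by
          apply mul_le_mul_of_nonneg_left _ (by positivity)
          exact pow_le_one' (by omega)
      _ = _ := mul_one _
  · push Not at hg
    have hsub : F ⊆ Bad1 V r k ∪ Bad2 V r k := by
      intro G hG
      rw [mem_union]
      by_cases h : G ∈ Bad1 V r k
      · exact Or.inl h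
      · exact Or.inr (hg G hG h)
    have h1 : (F.card : ℝ) ≤ ((Bad1 V r k).card : ℝ) + ((Bad2 V r k).card : ℝ) := by
      have := (card_le_card hsub).trans (card_union_le _ _)
      exact_mod_cast this
    have h2 := card_Bad1 (V := V) r k L hn hw2
    have h3 := card_Bad2 (V := V) r k L hn (by omega) hr2
    have h4 : (2 : ℝ) ^ (L * r) * (2 ^ (KK (univ : Finset V)).card *
      (2 ^ L * ((1 / 2 : ℝ) ^ (r.choose 2) *
        (1 / 2 : ℝ) ^ (((r - 1) / 2 - 2 * L) * (k + 1))))) =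
        (2 ^ (KK (univ : Finset V)).card * (1 / 2 : ℝ) ^ (r.choose 2)) *
        ((2 : ℝ) ^ (L * r + L) * (1 / 2 : ℝ) ^ (((r - 1) / 2 - 2 * L) * (k + 1))) := by
      rw [pow_add]; ring
    have h5 : (2 : ℝ) ^ (L * r) * (2 ^ (L * k) * (2 ^ (6 * (k * k)) *
      (2 ^ (KK (univ : Finset V)).card * ((1 / 2 : ℝ) ^ (r.choose 2 + (r * k - k * k)))))) =
        (2 ^ (KK (univ : Finset V)).card * (1 / 2 : ℝ) ^ (r.choose 2)) *
        ((2 : ℝ) ^ (L * r + L * k + 6 * (k * k)) * (1 / 2 : ℝ) ^ (r * k - k * k)) := by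
      rw [pow_add, pow_add, pow_add]; ring
    have h6 : (2 : ℝ) ^ (L * r + L) * (1 / 2 : ℝ) ^ (((r - 1) / 2 - 2 * L) * (k + 1)) ≤ 1 / 2 := by
      apply pow_le_half
      have e1 : 8 * k - 1 - 2 * L ≤ (r - 1) / 2 - 2 * L := by omega
      have e2 : (8 * k - 1 - 2 * L) * (k + 1) ≤ ((r - 1) / 2 - 2 * L) * (k + 1) :=
        Nat.mul_le_mul_right _ e1
      refine le_trans ?_ e2
      have e3 : 7 * k ≤ 8 * k - 1 - 2 * L := by omega
      have e4 : 7 * k * (k + 1) ≤ (8 * k - 1 - 2 * L) * (k + 1) := Nat.mul_le_mul_right _ e3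
      refine le_trans ?_ e4
      have e5 : 4 * (L * r) ≤ k * (20 * k) := by
        calc 4 * (L * r) = (4 * L) * r := by ring
          _ ≤ k * (20 * k) := Nat.mul_le_mul hk hr2
      nlinarith
    have h7 : (2 : ℝ) ^ (L * r + L * k + 6 * (k * k)) * (1 / 2 : ℝ) ^ (r * k - k * k) ≤ 1 / 2 := by
      apply pow_le_half
      have e5 : 4 * (L * r) ≤ k * r := by
        calc 4 * (L * r) = (4 * L) * r := by ring
          _ ≤ k * r := Nat.mul_le_mul_right _ hk
      have e6 : 4 * (L * k) ≤ k * k := by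
        calc 4 * (L * k) = (4 * L) * k := by ring
          _ ≤ k * k := Nat.mul_le_mul_right _ hk
      have e7 : 16 * (k * k) ≤ r * k := by
        calc 16 * (k * k) = (16 * k) * k := by ring
          _ ≤ r * k := Nat.mul_le_mul_right _ hr1
      have e8 : 1 ≤ k * k := Nat.mul_pos (by omega) (by omega)
      have e9 : r * k = k * r := Nat.mul_comm _ _
      omega
    rw [h4] at h2
    rw [h5] at h3
    have hP : (0 : ℝ) ≤ 2 ^ (KK (univ : Finset V)).card * (1 / 2 : ℝ) ^ (r.choose 2) := by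
      positivity
    have h8 := mul_le_mul_of_nonneg_left h6 hP
    have h9 := mul_le_mul_of_nonneg_left h7 hP
    linarith

/-- natural number form, with the logarithm -/
theorem core_nat (F : Finset (Finset (Sym2 V))) (hFU : ∀ G ∈ F, G ⊆ KK (univ : Finset V))
    (r : ℕ) (hn2 : 2 ≤ Fintype.card V) (hr : 64 * Nat.clog 2 (Fintype.card V) ≤ r)
    (hint : ∀ G ∈ F, ∀ H ∈ F, ∃ I : Finset V, I.card = r ∧ KK I ⊆ G ∧ KK I ⊆ H) :
    F.card ≤ 2 ^ ((Fintype.card V).choose 2 - r.choose 2) := by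
  rcases F.eq_empty_or_nonempty with he | ⟨G0, hG0⟩
  · rw [he]; simp
  obtain ⟨I, hI, _, _⟩ := hint G0 hG0 G0 hG0
  have hrn : r ≤ Fintype.card V := by rw [← hI]; exact card_le_univ I
  have hL : 1 ≤ Nat.clog 2 (Fintype.card V) := Nat.clog_pos (by norm_num) hn2
  have h := core F hFU r (Nat.clog 2 (Fintype.card V)) (r / 16)
    (Nat.le_pow_clog (by norm_num) _) hL (by omega) (by omega) (by omega) hint
  rw [card_KK, card_univ] at h
  have hc : r.choose 2 ≤ (Fintype.card V).choose 2 := Nat.choose_le_choose 2 hrn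
  have h2 : (2 : ℝ) ^ (Fintype.card V).choose 2 * (1 / 2 : ℝ) ^ (r.choose 2) =
      2 ^ ((Fintype.card V).choose 2 - r.choose 2) := by
    have h3 : (2 : ℝ) ^ (Fintype.card V).choose 2 =
        2 ^ ((Fintype.card V).choose 2 - r.choose 2) * 2 ^ (r.choose 2) := by
      rw [← pow_add]; congr 1; omega
    rw [h3, mul_assoc, ← mul_pow]
    norm_num
  rw [h2] at h
  exact_mod_cast h

end Pool.Agent.Helper281.Kr
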