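import Mathlib
import Pool.Agent.Helper281.Kr.Final

set_option autoImplicit false

namespace Pool.Agent.Helper281.Kr
open Finset

variable {n : ℕ}

open Classical in
/-- the edge set of a graph as a finite set -/
noncomputable def ES (G : SimpleGraph (Fin n)) : Finset (Sym2 (Fin n)) :=
  univ.filter (fun e => e ∈ G.edgeSet)

lemma mem_ES {G : SimpleGraph (Fin n)} {a b : Fin n} : s(a, b) ∈ ES G ↔ G.Adj a b := by
  unfold ES
  simp

lemma ES_sub (G : SimpleGraph (Fin n)) : ES G ⊆ KK (univ : Finset (Fin n)) := by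
  intro e
  induction e using Sym2.ind with
  | _ a b =>
    rw [mem_ES, mem_KK]
    intro h
    exact ⟨mem_univ _, mem_univ _, h.ne⟩

lemma ES_inj : Function.Injective (ES (n := n)) := by
  intro G H h
  ext a b
  rw [← mem_ES, ← mem_ES, h]

lemma KK_sub_ES {I : Finset (Fin n)} {G : SimpleGraph (Fin n)} :
    KK I ⊆ ES G ↔ ∀ a ∈ I, ∀ b ∈ I, a ≠ b → G.Adj a b := by
  constructor
  · intro h a ha b hb hab
    rw [← mem_ES]
    exact h (mem_KK.mpr ⟨ha, hb, hab⟩)
  · intro h e
    induction e using Sym2.ind with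
    | _ a b =>
      rw [mem_ES, mem_KK]
      rintro ⟨ha, hb, hab⟩
      exact h a ha b hb hab

/-- the graph of a set of pairs -/
def GR (E : Finset (Sym2 (Fin n))) : SimpleGraph (Fin n) :=
  SimpleGraph.fromEdgeSet (E : Set (Sym2 (Fin n)))

lemma ES_GR {E : Finset (Sym2 (Fin n))} (h : E ⊆ KK (univ : Finset (Fin n))) :
    ES (GR E) = E := by
  ext e
  induction e using Sym2.ind with
  | _ a b =>
    rw [mem_ES]
    unfold GR
    rw [SimpleGraph.fromEdgeSet_adj]
    constructor
    · rintro ⟨h1, _⟩; exact_mod_cast h1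
    · intro h1
      exact ⟨by exact_mod_cast h1, (mem_KK.mp (h h1)).2.2⟩

/-- upper bound for families of graphs with pairwise intersections containing an r-clique -/
theorem upper_int (r : ℕ) (hn : 2 ≤ n) (hr : 64 * Nat.clog 2 n ≤ r)
    (F : Finset (SimpleGraph (Fin n)))
    (hF : ∀ G ∈ F, ∀ H ∈ F, ∃ s : Finset (Fin n), (G ⊓ H).IsNClique r s) :
    F.card ≤ 2 ^ (n.choose 2 - r.choose 2) := by
  have h := core_nat (V := Fin n) (F.image ES) (by
      intro E hE
      rw [mem_image] at hE
      obtain ⟨G, _, rfl⟩ := hE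
      exact ES_sub G) r (by simpa using hn) (by simpa using hr) (by
      intro E hE E' hE'
      rw [mem_image] at hE hE'
      obtain ⟨G, hG, rfl⟩ := hE
      obtain ⟨H, hH, rfl⟩ := hE'
      obtain ⟨s, hs⟩ := hF G hG H hH
      rw [SimpleGraph.isNClique_iff, SimpleGraph.isClique_iff] at hs
      refine ⟨s, hs.2, ?_, ?_⟩
      · rw [KK_sub_ES]
        intro a ha b hb hab
        exact (hs.1 (by exact_mod_cast ha) (by exact_mod_cast hb) hab).1
      · rw [KK_sub_ES]
        intro a ha b hb hab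
        exact (hs.1 (by exact_mod_cast ha) (by exact_mod_cast hb) hab).2)
  rw [Fintype.card_fin, card_image_of_injective _ ES_inj] at h
  exact h

open Classical in
/-- the family of all graphs containing a fixed r-clique -/
theorem lower_int (r : ℕ) (hrn : r ≤ n) :
    ∃ F : Finset (SimpleGraph (Fin n)), F.card = 2 ^ (n.choose 2 - r.choose 2) ∧
      ∀ G ∈ F, ∀ H ∈ F, ∃ s : Finset (Fin n), (G ⊓ H).IsNClique r s := by
  obtain ⟨s, _, hs⟩ := Finset.exists_subset_card_eq
    (show r ≤ (univ : Finset (Fin n)).card by simpa using hrn)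
  refine ⟨(Icc (KK s) (KK (univ : Finset (Fin n)))).image GR, ?_, ?_⟩
  · rw [card_image_of_injOn, card_Icc_finset (KK_sub s), card_KK, card_KK, hs, card_univ,
      Fintype.card_fin]
    intro E hE E' hE' h
    rw [mem_coe, mem_Icc] at hE hE'
    rw [← ES_GR hE.2, ← ES_GR hE'.2]
    exact congrArg ES h
  · intro G hG H hH
    rw [mem_image] at hG hH
    obtain ⟨E, hE, rfl⟩ := hG
    obtain ⟨E', hE', rfl⟩ := hH
    rw [mem_Icc] at hE hE'
    refine ⟨s, ?_⟩
    rw [SimpleGraph.isNClique_iff, SimpleGraph.isClique_iff]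
    refine ⟨?_, hs⟩
    intro a ha b hb hab
    have h1 : KK s ⊆ ES (GR E) := by rw [ES_GR hE.2]; exact hE.1
    have h2 : KK s ⊆ ES (GR E') := by rw [ES_GR hE'.2]; exact hE'.1
    rw [KK_sub_ES] at h1 h2
    exact ⟨h1 a (by exact_mod_cast ha) b (by exact_mod_cast hb) hab,
      h2 a (by exact_mod_cast ha) b (by exact_mod_cast hb) hab⟩

end Pool.Agent.Helper281.Kr
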