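import Mathlib
import Pool.Agent.Helper281.Kr.Compress
import Pool.Agent.Helper281.Kr.Graph

set_option autoImplicit false

namespace Pool.Agent.Helper281.Kr
open Finset

theorem core_agree {V : Type} [Fintype V] [DecidableEq V]
    (F : Finset (Finset (Sym2 V))) (hFU : ∀ G ∈ F, G ⊆ KK (univ : Finset V))
    (r : ℕ) (hn2 : 2 ≤ Fintype.card V) (hr : 64 * Nat.clog 2 (Fintype.card V) ≤ r)
    (hint : ∀ G ∈ F, ∀ H ∈ F, ∃ I : Finset V, I.card = r ∧ Disjoint (KK I) (symmDiff G H)) :
    F.card ≤ 2 ^ ((Fintype.card V).choose 2 - r.choose 2) := by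
  obtain ⟨F', h1, h2, h3⟩ := union_exists
    (fun A => ∃ I : Finset V, I.card = r ∧ Disjoint (KK I) A)
    (by
      rintro A B hAB ⟨I, hI, hd⟩
      exact ⟨I, hI, hd.mono_right hAB⟩)
    (KK (univ : Finset V)) F hFU hint
  have hinj : Set.InjOn (fun A => KK (univ : Finset V) \ A) (F' : Set (Finset (Sym2 V))) := by
    intro A hA B hB h
    rw [mem_coe] at hA hB
    have eA : A = KK (univ : Finset V) \ (KK (univ : Finset V) \ A) := by
      rw [sdiff_sdiff_right_self]; exact (inf_eq_right.mpr (h2 A hA)).symm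
    have eB : B = KK (univ : Finset V) \ (KK (univ : Finset V) \ B) := by
      rw [sdiff_sdiff_right_self]; exact (inf_eq_right.mpr (h2 B hB)).symm
    rw [eA, eB]
    exact congrArg (fun X => KK (univ : Finset V) \ X) h
  have h := core_nat (V := V) (F'.image (fun A => KK (univ : Finset V) \ A)) (by
      intro G hG
      rw [mem_image] at hG
      obtain ⟨A, _, rfl⟩ := hG
      exact sdiff_subset) r hn2 hr (by
      intro G hG H hH
      rw [mem_image] at hG hH
      obtain ⟨A, hA, rfl⟩ := hG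
      obtain ⟨B, hB, rfl⟩ := hH
      obtain ⟨I, hI, hd⟩ := h3 A hA B hB
      rw [disjoint_union_right] at hd
      refine ⟨I, hI, ?_, ?_⟩
      · intro e he
        rw [mem_sdiff]
        exact ⟨KK_sub I he, Finset.disjoint_left.mp hd.1 he⟩
      · intro e he
        rw [mem_sdiff]
        exact ⟨KK_sub I he, Finset.disjoint_left.mp hd.2 he⟩)
  rw [card_image_of_injOn hinj, h1] at h
  exact h

variable {n : ℕ}

lemma mem_symmDiff_ES {G H : SimpleGraph (Fin n)} {a b : Fin n} :
    s(a, b) ∈ symmDiff (ES G) (ES H) ↔ (symmDiff G H).Adj a b := by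
  rw [Finset.mem_symmDiff, mem_ES, mem_ES, symmDiff_def, SimpleGraph.sup_adj,
    SimpleGraph.sdiff_adj, SimpleGraph.sdiff_adj]

theorem upper_agree (r : ℕ) (hn : 2 ≤ n) (hr : 64 * Nat.clog 2 n ≤ r) (hrn : r ≤ n)
    (F : Finset (SimpleGraph (Fin n)))
    (hF : ∀ G ∈ F, ∀ H ∈ F, G ≠ H → ∃ s : Finset (Fin n), (symmDiff G H).IsNIndepSet r s) :
    F.card ≤ 2 ^ (n.choose 2 - r.choose 2) := by
  have h := core_agree (V := Fin n) (F.image ES) (by
      intro E hE
      rw [mem_image] at hE
      obtain ⟨G, _, rfl⟩ := hE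
      exact ES_sub G) r (by simpa using hn) (by simpa using hr) (by
      intro E hE E' hE'
      rw [mem_image] at hE hE'
      obtain ⟨G, hG, rfl⟩ := hE
      obtain ⟨H, hH, rfl⟩ := hE'
      by_cases hGH : G = H
      · subst hGH
        obtain ⟨s, _, hs⟩ := Finset.exists_subset_card_eq
          (show r ≤ (univ : Finset (Fin n)).card by simpa using hrn)
        refine ⟨s, hs, ?_⟩
        rw [symmDiff_self]
        exact Finset.disjoint_empty_right _
      · obtain ⟨s, hs⟩ := hF G hG H hH hGH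
        rw [SimpleGraph.isNIndepSet_iff, SimpleGraph.isIndepSet_iff] at hs
        refine ⟨s, hs.2, ?_⟩
        rw [Finset.disjoint_left]
        intro e
        induction e using Sym2.ind with
        | _ a b =>
          rw [mem_KK, mem_symmDiff_ES]
          rintro ⟨ha, hb, hab⟩
          exact hs.1 (by exact_mod_cast ha) (by exact_mod_cast hb) hab)
  rw [Fintype.card_fin, card_image_of_injective _ ES_inj] at h
  exact h

theorem lower_agree (r : ℕ) (hrn : r ≤ n) :
    ∃ F : Finset (SimpleGraph (Fin n)), F.card = 2 ^ (n.choose 2 - r.choose 2) ∧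
      ∀ G ∈ F, ∀ H ∈ F, G ≠ H → ∃ s : Finset (Fin n), (symmDiff G H).IsNIndepSet r s := by
  obtain ⟨F, hF, h⟩ := lower_int r hrn
  refine ⟨F, hF, ?_⟩
  intro G hG H hH _
  obtain ⟨s, hs⟩ := h G hG H hH
  rw [SimpleGraph.isNClique_iff, SimpleGraph.isClique_iff] at hs
  refine ⟨s, ?_⟩
  rw [SimpleGraph.isNIndepSet_iff, SimpleGraph.isIndepSet_iff]
  refine ⟨?_, hs.2⟩
  intro a ha b hb hab
  have := hs.1 ha hb hab
  rw [SimpleGraph.inf_adj] at this
  rw [symmDiff_def, SimpleGraph.sup_adj, SimpleGraph.sdiff_adj, SimpleGraph.sdiff_adj]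
  tauto

end Pool.Agent.Helper281.Kr
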